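import Pool.Agent.SCP.Step
import Pool.Agent.SCG.Lab

/-!
# Project SCP (architect helper40), module Rl: the face poset of a polytope is in the class `RL`
-/

namespace SCP

open Finset SCS SCG

variable {ι : Type} [Finite ι]

/-- The induction hypotheses of `main`. -/
structure Hyp (L₀ L : Submodule ℝ (ι → ℝ)) (R : Finset ι) (n : ℕ) : Prop where
  dim : dd R L = 2 * (n + 1)
  le : L ≤ L₀
  ext : ∀ F, Fc L R F → ∀ y ∈ L₀, ∃ y' ∈ L, ∀ i ∈ F, y i = y' i
  pos : ∃ p ∈ L, ∀ i ∈ R, 0 < p i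

/-- Zero sets of rays are faces. -/
theorem ray_ne {L : Submodule ℝ (ι → ℝ)} {R F : Finset ι} {v : ι → ℝ} (hv : RV L R F v)
    (h : 2 ≤ dd R L) : F.Nonempty := by
  rw [Finset.nonempty_iff_ne_empty]
  rintro rfl
  have h1 := dd_le_one (L := L) (R := R) (v := v) fun z hz => hv.2.2.2 z hz fun i hi =>
    absurd hi (Finset.notMem_empty i)
  omega

theorem ray_fc {L : Submodule ℝ (ι → ℝ)} {R F : Finset ι} {v : ι → ℝ} (hv : RV L R F v)
    (h : 2 ≤ dd R L) : Fc L R F := ⟨ray_ne hv h, hv.2.1, v, hv.1, hv.2.2.1⟩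

open Classical in
/-- The set of the zero sets of rays. -/
noncomputable def RR (L : Submodule ℝ (ι → ℝ)) (R : Finset ι) : Finset (Finset ι) :=
  R.powerset.filter fun F => ∃ v, RV L R F v

omit [Finite ι] in
theorem mem_RR {L : Submodule ℝ (ι → ℝ)} {R F : Finset ι} : F ∈ RR L R ↔ ∃ v, RV L R F v := by
  classical
  unfold RR
  rw [mem_filter, mem_powerset]
  exact ⟨fun h => h.2, fun h => ⟨h.elim fun v hv => hv.2.2.1.1, h⟩⟩

omit [Finite ι] in
/-- Normalised ray vectors and a generic functional. -/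
theorem exists_u (L : Submodule ℝ (ι → ℝ)) (R : Finset ι) :
    ∃ (v : Finset ι → ι → ℝ) (u : (ι → ℝ) →ₗ[ℝ] ℝ), Lin R u ∧
      (∀ F ∈ RR L R, RV L R F (v F) ∧ sm R (v F) = 1) ∧
      ∀ F ∈ RR L R, ∀ F' ∈ RR L R, u (v F) = u (v F') → F = F' := by
  classical
  have h1 : ∀ F : Finset ι, ∃ v : ι → ℝ, F ∈ RR L R → RV L R F v ∧ sm R v = 1 := by
    intro F
    by_cases h : F ∈ RR L R
    · obtain ⟨v, hv⟩ := mem_RR.1 h
      obtain ⟨v', h2, h3⟩ := hv.norm
      exact ⟨v', fun _ => ⟨h2, h3⟩⟩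
    · exact ⟨0, fun h2 => absurd h2 h⟩
  choose v hv using h1
  obtain ⟨u, hu, hu2⟩ := exists_generic R (RR L R) v (by
    intro F hF F' hF' hne h
    apply hne
    have h2 := (hv F hF).1.2.2.1
    have h3 := (hv F' hF').1.2.2.1
    refine h2.unique ⟨h3.1, ?_⟩
    intro i hi
    rw [h i hi]
    exact h3.2 i hi)
  refine ⟨v, u, hu, hv, ?_⟩
  intro F hF F' hF' h
  by_contra hne
  exact hu2 F hF F' hF' hne h

open Classical in
/-- The rank of a ray. -/
noncomputable def rk (M : Finset (Finset ι)) (g : Finset ι → ℝ) (F : Finset ι) : ℕ :=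
  (M.filter fun F' => g F' < g F).card

omit [Finite ι] in
theorem rk_lt {M : Finset (Finset ι)} {g : Finset ι → ℝ} {F F' : Finset ι} (hF : F ∈ M) :
    rk M g F < rk M g F' ↔ g F < g F' := by
  classical
  constructor
  · intro h
    by_contra hcon
    push Not at hcon
    refine absurd h (not_lt.2 (Finset.card_le_card ?_))
    intro X hX
    rw [mem_filter] at hX ⊢
    exact ⟨hX.1, hX.2.trans_le hcon⟩
  · intro h
    refine Finset.card_lt_card ⟨?_, ?_⟩
    · intro X hX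
      rw [mem_filter] at hX ⊢
      exact ⟨hX.1, hX.2.trans h⟩
    · intro hs
      have h1 := hs (mem_filter.2 ⟨hF, h⟩)
      rw [mem_filter] at h1
      exact lt_irrefl _ h1.2

/-- The maximal faces with an ordering. -/
theorem pd_FF {L : Submodule ℝ (ι → ℝ)} {R : Finset ι} (h : 2 ≤ dd R L) {g : Finset ι → ℝ}
    (hg : ∀ F ∈ RR L R, ∀ F' ∈ RR L R, g F = g F' → F = F') :
    PD (FF L R) (RR L R) (rk (RR L R) g) where
  sub := by
    intro F hF
    obtain ⟨v, hv⟩ := mem_RR.1 hF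
    exact mem_FF.2 (ray_fc hv h)
  max := by
    intro F hF x hx hlt
    obtain ⟨v, hv⟩ := mem_RR.1 hF
    exact hv.max (mem_FF.1 hx) hlt
  two := by
    intro x hx hxM
    obtain ⟨hx1, hx2, y, hy, hyx⟩ := mem_FF.1 hx
    obtain ⟨F, v, hv, hxF⟩ := exists_ray hy hyx hx2
    have hF := mem_RR.2 ⟨v, hv⟩
    have hne : x ≠ F := by
      rintro rfl
      exact hxM hF
    obtain ⟨F', v', hv', hxF', hne'⟩ := exists_ray' hv hy hyx hxF hne
    have hF' := mem_RR.2 ⟨v', hv'⟩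
    have hne2 : x ≠ F' := by
      rintro rfl
      exact hxM hF'
    exact ⟨F, hF, F', hF', hne'.symm, Finset.ssubset_iff_subset_ne.2 ⟨hxF, hne⟩,
      Finset.ssubset_iff_subset_ne.2 ⟨hxF', hne2⟩⟩
  inj := by
    intro F hF F' hF' he
    apply hg F hF F' hF'
    by_contra hcon
    rcases lt_or_gt_of_ne hcon with h1 | h1
    · exact absurd he ((rk_lt hF).2 h1).ne
    · exact absurd he ((rk_lt hF').2 h1).ne'

theorem card_RR {L : Submodule ℝ (ι → ℝ)} {R : Finset ι} (h : 2 ≤ dd R L) {p : ι → ℝ} (hp : p ∈ L)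
    (hpos : ∀ i ∈ R, 0 < p i) : 2 ≤ (RR L R).card := by
  classical
  have h1 : NZ R ∅ p := ⟨Finset.empty_subset _, fun i hi => ⟨(hpos i hi).le, by
    constructor
    · intro e
      exact absurd e (hpos i hi).ne'
    · intro e
      exact absurd e (Finset.notMem_empty i)⟩⟩
  have hR : ∅ ≠ R := by
    rintro rfl
    have h2 := dd_le_one (L := L) (R := ∅) (v := p) fun z _ => ⟨0, fun i hi =>
      absurd hi (Finset.notMem_empty i)⟩
    omega
  obtain ⟨F, v, hv, -⟩ := exists_ray hp h1 hR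
  obtain ⟨F', v', hv', -, hne⟩ := exists_ray' hv hp h1 (Finset.empty_subset _)
    (ray_ne hv h).ne_empty.symm
  have h3 : ({F, F'} : Finset (Finset ι)) ⊆ RR L R := by
    intro X hX
    rw [mem_insert, mem_singleton] at hX
    rcases hX with rfl | rfl
    · exact mem_RR.2 ⟨v, hv⟩
    · exact mem_RR.2 ⟨v', hv'⟩
  calc 2 = ({F, F'} : Finset (Finset ι)).card := (Finset.card_pair hne.symm).symm
    _ ≤ _ := Finset.card_le_card h3

/-- The step: the kernel of the functional satisfies the hypotheses again. -/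
theorem hyp_step {L₀ L : Submodule ℝ (ι → ℝ)} {R : Finset ι} {n : ℕ} (h : Hyp L₀ L R n)
    {F F₁ F₂ : Finset ι} {v v₁ v₂ : ι → ℝ} (hv : RV L R F v) (w : (ι → ℝ) →ₗ[ℝ] ℝ) (hw : Lin R w)
    (hwv : w v = 0) (hgen : ∀ F' v', RV L R F' v' → F' ≠ F → w v' ≠ 0) (hv₁ : RV L R F₁ v₁)
    (hw₁ : w v₁ < 0) (hv₂ : RV L R F₂ v₂) (hw₂ : 0 < w v₂) :
    ∃ m, n = m + 1 ∧ Hyp L₀ (L ⊓ LinearMap.ker w) F m := by
  have h2 : 2 ≤ dd R L := by
    rw [h.dim]
    omega
  have hFn := ray_ne hv h2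
  have e1 := dd_ray hv
  have e2 := dd_ker (L := L) (F := F) w (by
    intro z hz hz0
    obtain ⟨c, hc⟩ := hv.2.2.2 z hz hz0
    rw [hw.smul hc, hwv, mul_zero]) hv₁.1 hw₁.ne
  have e3 := h.dim
  obtain ⟨p, hp, hpos⟩ := h.pos
  have hpos' : ∃ p' ∈ L ⊓ LinearMap.ker w, ∀ i ∈ F, 0 < p' i := by
    obtain ⟨a, b, ha, hb, hab⟩ := adjust (x := p) hw₁ hw₂
    refine ⟨p + a • v₁ + b • v₂, ⟨L.add_mem (L.add_mem hp (L.smul_mem a hv₁.1))
      (L.smul_mem b hv₂.1), hab⟩, ?_⟩
    intro i hi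
    have hiR := hv.2.2.1.1 hi
    have n1 := mul_nonneg ha (hv₁.2.2.1.nonneg hiR)
    have n2 := mul_nonneg hb (hv₂.2.2.1.nonneg hiR)
    have n3 := hpos i hiR
    rw [Pi.add_apply, Pi.add_apply, Pi.smul_apply, Pi.smul_apply, smul_eq_mul, smul_eq_mul]
    linarith
  have e4 : 0 < dd F (L ⊓ LinearMap.ker w) := by
    obtain ⟨p', hp', hpos'⟩ := hpos'
    obtain ⟨i, hi⟩ := hFn
    exact dd_pos hp' hi (hpos' i hi).ne'
  obtain ⟨m, rfl⟩ : ∃ m, n = m + 1 := by
    refine ⟨n - 1, ?_⟩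
    omega
  refine ⟨m, rfl, ⟨by omega, inf_le_left.trans h.le, ?_, hpos'⟩⟩
  intro G hG y hy
  obtain ⟨hG1, hG2, ⟨F', v', hv', hw', hG'⟩, -⟩ := (step hv hFn w hw hwv hgen G).1 hG
  obtain ⟨y₁, hy₁, he⟩ := h.ext G hG1 y hy
  refine ⟨y₁ - (w y₁ / w v') • v', ⟨L.sub_mem hy₁ (L.smul_mem _ hv'.1), ?_⟩, ?_⟩
  · rw [SetLike.mem_coe, LinearMap.mem_ker, map_sub, map_smul, smul_eq_mul,
      div_mul_cancel₀ _ hw'.ne, sub_self]
  · intro i hi
    rw [Pi.sub_apply, Pi.smul_apply, smul_eq_mul, hv'.2.2.1.zero (hG'.1 hi), mul_zero, sub_zero]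
    exact he i hi

omit [Finite ι] in
theorem mem_tt {P : Type} [PartialOrder P] {Q M : Finset P} {r : P → ℕ} {F x : P} :
    x ∈ TT Q M r F ↔ x ∈ Q ∧ x < F ∧ (∃ F' ∈ M, r F' < r F ∧ x < F') ∧
      ∃ F' ∈ M, r F < r F' ∧ x < F' := by
  classical
  unfold TT
  rw [mem_filter]

/-- The faces of a polytope of odd dimension are in the class `RL`. -/
theorem main (L₀ : Submodule ℝ (ι → ℝ)) (Lab : CoxeterMatrix (Finset ι))
    (hlab : ∀ F G : Finset ι, G.Nonempty → G ⊂ F → Odd (dd F L₀) → Lab F G = 2) :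
    ∀ (n : ℕ) (R : Finset ι) (L : Submodule ℝ (ι → ℝ)), Hyp L₀ L R n → RL Lab (FF L R) := by
  classical
  intro n
  induction n using Nat.strong_induction_on with
  | _ n ih =>
    intro R L h
    have h2 : 2 ≤ dd R L := by
      rw [h.dim]
      omega
    obtain ⟨v, u, hu, hv, huv⟩ := exists_u L R
    obtain ⟨p, hp, hpos⟩ := h.pos
    refine RL.mk (FF L R) (RR L R) (rk (RR L R) fun F => u (v F)) (pd_FF h2 huv)
      (card_RR h2 hp hpos) ?_ ?_
    · intro F hF x hx hlt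
      obtain ⟨v', hv'⟩ := mem_RR.1 hF
      refine hlab F x (mem_FF.1 hx).1 hlt ?_
      have e1 := dd_ray hv'
      have e2 := h.dim
      have e3 : dd F L₀ = dd F L := dd_congr (h.ext F (ray_fc hv' h2)) h.le
      rw [e3]
      exact ⟨n, by omega⟩
    · rintro F hF ⟨F₁, hF₁, hr₁⟩ ⟨F₂, hF₂, hr₂⟩
      have g₁ := (rk_lt hF₁).1 hr₁
      have g₂ := (rk_lt hF).1 hr₂
      obtain ⟨hvF, hsF⟩ := hv F hF
      obtain ⟨hv₁, hs₁⟩ := hv F₁ hF₁
      obtain ⟨hv₂, hs₂⟩ := hv F₂ hF₂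
      obtain ⟨w, hw⟩ : ∃ w, w = u - (u (v F)) • sm R := ⟨_, rfl⟩
      have hwx : ∀ x, w x = u x - u (v F) * sm R x := fun x => by
        rw [hw, LinearMap.sub_apply, LinearMap.smul_apply, smul_eq_mul]
      have hwl : Lin R w := by
        intro z hz
        rw [hwx, hu z hz, sm_lin R z hz, mul_zero, sub_zero]
      have hwM : ∀ F' ∈ RR L R, w (v F') = u (v F') - u (v F) := by
        intro F' hF'
        rw [hwx, (hv F' hF').2, mul_one]
      have hwv : w (v F) = 0 := by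
        rw [hwM F hF, sub_self]
      have hgen : ∀ F' v', RV L R F' v' → F' ≠ F → w v' ≠ 0 := by
        intro F' v' hv' hne h0
        have hF' := mem_RR.2 ⟨v', hv'⟩
        obtain ⟨c, -, hcv⟩ := hv'.eq (hv F' hF').1
        have h1 := hwl.smul hcv
        rw [h0, mul_zero, hwM F' hF'] at h1
        exact hne (huv F' hF' F hF (sub_eq_zero.1 h1))
      have hT : TT (FF L R) (RR L R) (rk (RR L R) fun F => u (v F)) F =
          FF (L ⊓ LinearMap.ker w) F := by
        ext G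
        rw [mem_FF, step hvF (ray_ne hvF h2) w hwl hwv hgen G]
        rw [mem_tt, mem_FF]
        refine and_congr_right fun hG => and_congr_right fun hlt => and_congr ?_ ?_
        · constructor
          · rintro ⟨F', hF', hr, hG'⟩
            refine ⟨F', v F', (hv F' hF').1, ?_, hG'⟩
            rw [hwM F' hF']
            have h3 := (rk_lt hF').1 hr
            exact sub_neg.2 h3
          · rintro ⟨F', v', hv', hneg, hG'⟩
            have hF' := mem_RR.2 ⟨v', hv'⟩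
            refine ⟨F', hF', ?_, hG'⟩
            obtain ⟨c, hc, hcv⟩ := hv'.eq (hv F' hF').1
            have h1 := hwl.smul hcv
            rw [hwM F' hF'] at h1
            have h3 := mul_neg_of_pos_of_neg hc hneg
            rw [rk_lt hF']
            exact sub_neg.1 (h1.trans_lt h3)
        · constructor
          · rintro ⟨F', hF', hr, hG'⟩
            refine ⟨F', v F', (hv F' hF').1, ?_, hG'⟩
            rw [hwM F' hF']
            have h3 := (rk_lt hF).1 hr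
            exact sub_pos.2 h3
          · rintro ⟨F', v', hv', hneg, hG'⟩
            have hF' := mem_RR.2 ⟨v', hv'⟩
            refine ⟨F', hF', ?_, hG'⟩
            obtain ⟨c, hc, hcv⟩ := hv'.eq (hv F' hF').1
            have h1 := hwl.smul hcv
            rw [hwM F' hF'] at h1
            have h3 := mul_pos hc hneg
            rw [rk_lt hF]
            exact sub_pos.1 (h3.trans_eq h1.symm)
      obtain ⟨m, rfl, hyp⟩ := hyp_step h hvF w hwl hwv hgen hv₁ (by
        rw [hwM F₁ hF₁]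
        exact sub_neg.2 g₁) hv₂ (by
        rw [hwM F₂ hF₂]
        exact sub_pos.2 g₂)
      rw [hT]
      exact ih m (Nat.lt_succ_self m) F _ hyp

end SCP
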