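import Pool.Agent.SCP.Face
import Pool.Agent.SCP.Rl
import Pool.Agent.SCG.Pos
import Pool.Agent.SCG.Hom

/-!
# Project SCP (architect helper40), module Fin: final assembly
-/

namespace SCP

open Finset SNG SCS SCG

section ext

variable {P V : Type} [PartialOrder P]

open Classical in
/-- the labels on all of `P` -/
private noncomputable def exf (M : CoxeterMatrix V) (φ : V → P) (σ τ : P) : ℕ :=
  if σ = τ then 1 else if h : (∃ x, φ x = σ) ∧ ∃ y, φ y = τ then M h.1.choose h.2.choose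
    else if σ < τ ∨ τ < σ then 2 else 0

private theorem exf_self (M : CoxeterMatrix V) (φ : V → P) (σ : P) :
    exf M φ σ σ = 1 := if_pos rfl

private theorem exf_in {M : CoxeterMatrix V} {φ : V → P} (hi : Function.Injective φ)
    (x y : V) : exf M φ (φ x) (φ y) = M x y := by
  unfold exf
  by_cases h : φ x = φ y
  · rw [if_pos h, hi h]
    exact (M.diagonal y).symm
  · have h2 : (∃ x', φ x' = φ x) ∧ ∃ y', φ y' = φ y := ⟨⟨x, rfl⟩, y, rfl⟩
    rw [if_neg h, dif_pos h2, hi h2.1.choose_spec, hi h2.2.choose_spec]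

private theorem exf_out {M : CoxeterMatrix V} {φ : V → P} {σ τ : P} (h : σ ≠ τ)
    (h2 : ¬ ((∃ x, φ x = σ) ∧ ∃ y, φ y = τ)) :
    exf M φ σ τ = (open Classical in if σ < τ ∨ τ < σ then 2 else 0) := by
  unfold exf
  rw [if_neg h, dif_neg h2]

private noncomputable def exM (M : CoxeterMatrix V) {φ : V → P}
    (hi : Function.Injective φ) : CoxeterMatrix P where
  M := Matrix.of fun σ τ => exf M φ σ τ
  isSymm := by
    classical
    ext σ τ
    change exf M φ τ σ = exf M φ σ τ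
    by_cases h : σ = τ
    · rw [h]
    · by_cases h2 : (∃ x, φ x = σ) ∧ ∃ y, φ y = τ
      · obtain ⟨⟨x, rfl⟩, y, rfl⟩ := h2
        rw [exf_in hi, exf_in hi, M.symmetric]
      · rw [exf_out h h2, exf_out (Ne.symm h) fun h3 => h2 ⟨h3.2, h3.1⟩]
        simp only [or_comm]
  diagonal σ := exf_self M φ σ
  off_diagonal σ τ h := by
    classical
    change exf M φ σ τ ≠ 1
    by_cases h2 : (∃ x, φ x = σ) ∧ ∃ y, φ y = τ
    · obtain ⟨⟨x, rfl⟩, y, rfl⟩ := h2
      rw [exf_in hi]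
      exact M.off_diagonal x y fun h3 => h (by rw [h3])
    · rw [exf_out h h2]
      split_ifs <;> norm_num

end ext

/-- From labelled posets to Coxeter systems. -/
theorem poset_nohom {P : Type} [PartialOrder P] {V : Type} [Fintype V] [LinearOrder V]
    (M : CoxeterMatrix V) (φ : V → P) (hi : Function.Injective φ) (Q : Finset P)
    (hQ : ∀ τ, τ ∈ Q ↔ ∃ v, φ v = τ) (D : P → Prop)
    (h0 : ∀ x y, x ≠ y → ¬ φ x < φ y → ¬ φ y < φ x → M x y = 0)
    (h2 : ∀ x y, φ x < φ y → D (φ y) → M x y = 2)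
    (hR : ∀ Lab : CoxeterMatrix P, (∀ F G, G < F → D F → Lab F G = 2) → RL Lab Q) :
    NoHom M := by
  classical
  have hin : ∀ x y, exM M hi (φ x) (φ y) = M x y := fun x y => exf_in hi x y
  have hout : ∀ σ τ : P, σ ≠ τ → ¬ ((∃ x, φ x = σ) ∧ ∃ y, φ y = τ) →
      exM M hi σ τ = if σ < τ ∨ τ < σ then 2 else 0 := by
    intro σ τ h3 h4
    refine (exf_out h3 h4).trans ?_
    congr 1
  rw [nohom_iff, vv_iff_zg, zg_image (G' := exM M hi) φ (fun x _ y _ hxy => hi hxy)
    fun x _ y _ => hin x y]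
  have e : univ.image φ = Q := by
    ext τ
    rw [hQ, mem_image]
    simp
  rw [e]
  refine rl_zg ?_ (hR _ ?_)
  · intro σ τ hne h3 h4
    by_cases h5 : (∃ x, φ x = σ) ∧ ∃ y, φ y = τ
    · obtain ⟨⟨x, rfl⟩, y, rfl⟩ := h5
      rw [hin]
      exact h0 x y (fun h6 => hne (by rw [h6])) h3 h4
    · rw [hout σ τ hne h5, if_neg]
      rintro (h6 | h6)
      · exact h3 h6
      · exact h4 h6
  · intro τ σ hlt ho
    by_cases h5 : (∃ x, φ x = τ) ∧ ∃ y, φ y = σ
    · obtain ⟨⟨x, rfl⟩, y, rfl⟩ := h5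
      rw [hin, M.symmetric]
      exact h2 y x hlt ho
    · rw [hout τ σ hlt.ne' h5, if_pos (Or.inr hlt)]

/-- The theorem for polytopes. -/
theorem poly_nohom {E : Type} [NormedAddCommGroup E] [NormedSpace ℝ E] [FiniteDimensional ℝ E]
    (S : Finset E) (hS : Odd (Module.finrank ℝ (vectorSpan ℝ (S : Set E)))) {V : Type} [Fintype V]
    [LinearOrder V] (M : CoxeterMatrix V) (φ : V → Set E) (hi : Function.Injective φ)
    (hr : ∀ s, (∃ v, φ v = s) ↔ PF S s)
    (h0 : ∀ x y, x ≠ y → ¬ φ x ⊂ φ y → ¬ φ y ⊂ φ x → M x y = 0)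
    (h2 : ∀ x y, φ x ⊂ φ y → Even (Module.finrank ℝ (vectorSpan ℝ (φ y))) → M x y = 2) :
    NoHom M := by
  have hφ : ∀ v, PF S (φ v) := fun v => (hr _).1 ⟨v, rfl⟩
  have hpu : pts (univ : Finset {x // x ∈ S}) = (S : Set E) := by
    ext x
    constructor
    · rintro ⟨hx, -⟩
      exact hx
    · intro hx
      exact ⟨hx, mem_univ _⟩
  have hSn : (univ : Finset {x // x ∈ S}).Nonempty := by
    rw [Finset.nonempty_iff_ne_empty]
    intro h
    have h1 : (S : Set E) = ∅ := by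
      rw [← hpu, h]
      ext x
      constructor
      · rintro ⟨hx, hx'⟩
        exact absurd hx' (Finset.notMem_empty _)
      · intro hx
        exact absurd hx (Set.notMem_empty _)
    rw [h1, vectorSpan_empty, finrank_bot] at hS
    exact absurd hS (by decide)
  have hlt : ∀ x y, tr S (φ x) < tr S (φ y) ↔ φ x ⊂ φ y := fun x y => tr_ssub (hφ x) (hφ y)
  refine poset_nohom M (fun v => tr S (φ v)) (fun x y hxy => hi (tr_inj (hφ x) (hφ y) hxy))
    (FF (La S) univ) ?_ (fun F => Odd (dd F (La S))) ?_ ?_ ?_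
  · intro τ
    rw [mem_FF]
    constructor
    · intro h
      obtain ⟨s, hs, rfl⟩ := fc_exists h
      obtain ⟨v, rfl⟩ := (hr s).2 hs
      exact ⟨v, rfl⟩
    · rintro ⟨v, rfl⟩
      exact (hφ v).fc
  · intro x y hne h3 h4
    exact h0 x y hne (fun h => h3 ((hlt x y).2 h)) fun h => h4 ((hlt y x).2 h)
  · intro x y h3 h4
    refine h2 x y ((hlt x y).1 h3) ?_
    rw [dd_La (hφ y).fc.1, (hφ y).dim] at h4
    exact Nat.not_odd_iff_even.1 fun h5 => (Nat.not_odd_iff_even.2 h5.add_one) h4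
  · intro Lab hLab
    obtain ⟨k, hk⟩ := hS
    refine main (La S) Lab (fun F G _ hlt ho => hLab F G hlt ho) k univ (La S) ⟨?_, le_rfl, ?_, ?_⟩
    · rw [dd_La hSn, hpu, hk]
      ring
    · exact fun F _ y hy => ⟨y, hy, fun i _ => rfl⟩
    · exact ⟨fun _ => 1, mem_La.2 ⟨0, 1, fun x => by rw [LinearMap.zero_apply, zero_add]⟩,
        fun i _ => one_pos⟩

end SCP
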