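import Pool.Agent.SCP.Dim

/-!
# Project SCP (architect helper40), module Aff: the space of affine functions on a finite set of points
-/

namespace SCP

open Finset

variable {E : Type} [AddCommGroup E] [Module ℝ E]

/-- A linear functional and a constant as a function on the points of `S`. -/
noncomputable def af (S : Finset E) : (Module.Dual ℝ E × ℝ) →ₗ[ℝ] ({x // x ∈ S} → ℝ) where
  toFun q x := q.1 x.1 + q.2
  map_add' q q' := by
    funext x
    simp only [Prod.fst_add, Prod.snd_add, LinearMap.add_apply, Pi.add_apply]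
    ring
  map_smul' c q := by
    funext x
    simp only [Prod.smul_fst, Prod.smul_snd, LinearMap.smul_apply, Pi.smul_apply, smul_eq_mul,
      RingHom.id_apply]
    ring

theorem af_apply (S : Finset E) (q : Module.Dual ℝ E × ℝ) (x : {x // x ∈ S}) :
    af S q x = q.1 x.1 + q.2 := rfl

/-- The space of the affine functions on `S`. -/
noncomputable def La (S : Finset E) : Submodule ℝ ({x // x ∈ S} → ℝ) := LinearMap.range (af S)

theorem mem_La {S : Finset E} {y : {x // x ∈ S} → ℝ} :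
    y ∈ La S ↔ ∃ (l : Module.Dual ℝ E) (c : ℝ), ∀ x, y x = l x.1 + c := by
  constructor
  · rintro ⟨q, rfl⟩
    exact ⟨q.1, q.2, fun x => rfl⟩
  · rintro ⟨l, c, h⟩
    exact ⟨(l, c), funext fun x => (h x).symm⟩

/-- the points of `F` -/
def pts {S : Finset E} (F : Finset {x // x ∈ S}) : Set E := {x | ∃ h : x ∈ S, (⟨x, h⟩ : {x // x ∈ S}) ∈ F}

/-- A functional on the directions of `F` and a constant as a function on `F`. -/
noncomputable def psi {S : Finset E} (F : Finset {x // x ∈ S}) (x₀ : {x // x ∈ S}) (h : x₀ ∈ F) :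
    (Module.Dual ℝ (vectorSpan ℝ (pts F)) × ℝ) →ₗ[ℝ] ({i // i ∈ F} → ℝ) where
  toFun q i := q.1 ⟨i.1.1 -ᵥ x₀.1, vsub_mem_vectorSpan ℝ ⟨i.1.2, i.2⟩ ⟨x₀.2, h⟩⟩ + q.2
  map_add' q q' := by
    funext x
    simp only [Prod.fst_add, Prod.snd_add, LinearMap.add_apply, Pi.add_apply]
    ring
  map_smul' c q := by
    funext x
    simp only [Prod.smul_fst, Prod.smul_snd, LinearMap.smul_apply, Pi.smul_apply, smul_eq_mul,
      RingHom.id_apply]
    ring

theorem psi_inj {S : Finset E} (F : Finset {x // x ∈ S}) (x₀ : {x // x ∈ S}) (h : x₀ ∈ F) :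
    Function.Injective (psi F x₀ h) := by
  rw [injective_iff_map_eq_zero]
  rintro ⟨g, c⟩ h0
  have h1 : ∀ i : {i // i ∈ F},
      g ⟨i.1.1 -ᵥ x₀.1, vsub_mem_vectorSpan ℝ ⟨i.1.2, i.2⟩ ⟨x₀.2, h⟩⟩ + c = 0 := fun i =>
    congrFun h0 i
  have h2 : c = 0 := by
    have h3 := h1 ⟨x₀, h⟩
    have h4 : (⟨x₀.1 -ᵥ x₀.1, vsub_mem_vectorSpan ℝ ⟨x₀.2, h⟩ ⟨x₀.2, h⟩⟩ :
        vectorSpan ℝ (pts F)) = 0 := Subtype.ext (vsub_self x₀.1)
    rw [h4, map_zero, zero_add] at h3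
    exact h3
  have h5 : g = 0 := by
    have h6 : vectorSpan ℝ (pts F) = Submodule.span ℝ ((· -ᵥ x₀.1) '' pts F) :=
      vectorSpan_eq_span_vsub_set_right ℝ (p := x₀.1) ⟨x₀.2, h⟩
    have h7 : vectorSpan ℝ (pts F) ≤ (LinearMap.ker g).map (vectorSpan ℝ (pts F)).subtype := by
      conv_lhs => rw [h6]
      rw [Submodule.span_le]
      rintro _ ⟨x, ⟨hx, hxF⟩, rfl⟩
      refine ⟨⟨x -ᵥ x₀.1, vsub_mem_vectorSpan ℝ ⟨hx, hxF⟩ ⟨x₀.2, h⟩⟩, ?_, rfl⟩
      rw [SetLike.mem_coe, LinearMap.mem_ker]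
      have h8 := h1 ⟨⟨x, hx⟩, hxF⟩
      rw [h2, add_zero] at h8
      exact h8
    ext a
    obtain ⟨b, hb, hba⟩ := h7 a.2
    have h9 : b = a := Subtype.ext hba
    rw [← h9]
    exact hb
  rw [h2, h5]
  rfl

theorem psi_range {S : Finset E} (F : Finset {x // x ∈ S}) (x₀ : {x // x ∈ S}) (h : x₀ ∈ F) :
    LinearMap.range (psi F x₀ h) = (La S).map (rs F) := by
  apply le_antisymm
  · rintro _ ⟨⟨g, c⟩, rfl⟩
    obtain ⟨l, hl⟩ := LinearMap.exists_extend g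
    refine ⟨fun x => l x.1 + (c - l x₀.1), mem_La.2 ⟨l, c - l x₀.1, fun x => rfl⟩, ?_⟩
    funext i
    rw [rs_apply]
    change l i.1.1 + (c - l x₀.1) =
      g ⟨i.1.1 -ᵥ x₀.1, vsub_mem_vectorSpan ℝ ⟨i.1.2, i.2⟩ ⟨x₀.2, h⟩⟩ + c
    have h1 : l (i.1.1 - x₀.1) =
        g ⟨i.1.1 -ᵥ x₀.1, vsub_mem_vectorSpan ℝ ⟨i.1.2, i.2⟩ ⟨x₀.2, h⟩⟩ := by
      rw [← hl]
      rfl
    rw [← h1, map_sub]
    ring
  · rintro _ ⟨y, hy, rfl⟩
    obtain ⟨l, c, hlc⟩ := mem_La.1 hy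
    refine ⟨(l ∘ₗ (vectorSpan ℝ (pts F)).subtype, l x₀.1 + c), ?_⟩
    funext i
    rw [rs_apply, hlc]
    change l (i.1.1 -ᵥ x₀.1) + (l x₀.1 + c) = l i.1.1 + c
    rw [vsub_eq_sub, map_sub]
    ring

/-- The dimension of the space of restrictions of affine functions. -/
theorem dd_La [FiniteDimensional ℝ E] {S : Finset E} {F : Finset {x // x ∈ S}}
    (h : F.Nonempty) : dd F (La S) = Module.finrank ℝ (vectorSpan ℝ (pts F)) + 1 := by
  obtain ⟨x₀, h0⟩ := h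
  unfold dd
  rw [← psi_range F x₀ h0, LinearMap.finrank_range_of_inj (psi_inj F x₀ h0), Module.finrank_prod,
    Module.finrank_self, Subspace.dual_finrank_eq]

end SCP
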