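import Mathlib

/-!
# Project SCP (architect helper40), module Cone: faces and rays of cones of nonnegative functions

`L`: a linear space of functions on `ι`, `R` a finite set of indices.  `NZ R F x`: `x` is nonnegative on
`R` with the set of zeros `F`.  The sets `F` (nonempty, different from `R`) with `NZ R F x` for some `x ∈ L`
are the faces (`Fc L R F`, `FF L R`); if `L` is the space of the affine functions on a set of points
these are the faces of the convex hull.  `Ry L R F`: `F` is the set of zeros of an extreme ray.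
-/

namespace SCP

open Finset

variable {ι : Type}

/-- `x` is nonnegative on `R` and `F` is the set of its zeros in `R`. -/
def NZ (R F : Finset ι) (x : ι → ℝ) : Prop :=
  F ⊆ R ∧ ∀ i ∈ R, 0 ≤ x i ∧ (x i = 0 ↔ i ∈ F)

/-- The faces. -/
def Fc (L : Submodule ℝ (ι → ℝ)) (R F : Finset ι) : Prop :=
  F.Nonempty ∧ F ≠ R ∧ ∃ x ∈ L, NZ R F x

open Classical in
/-- The set of all faces. -/
noncomputable def FF (L : Submodule ℝ (ι → ℝ)) (R : Finset ι) : Finset (Finset ι) :=
  R.powerset.filter fun F => Fc L R F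

/-- `v` spans an extreme ray with the zeros `F`. -/
def RV (L : Submodule ℝ (ι → ℝ)) (R F : Finset ι) (v : ι → ℝ) : Prop :=
  v ∈ L ∧ F ≠ R ∧ NZ R F v ∧ ∀ z ∈ L, (∀ i ∈ F, z i = 0) → ∃ c : ℝ, ∀ i ∈ R, z i = c * v i

theorem NZ.sub {R F : Finset ι} {x : ι → ℝ} (h : NZ R F x) : F ⊆ R := h.1

theorem NZ.nonneg {R F : Finset ι} {x : ι → ℝ} (h : NZ R F x) {i : ι} (hi : i ∈ R) : 0 ≤ x i :=
  (h.2 i hi).1

theorem NZ.zero {R F : Finset ι} {x : ι → ℝ} (h : NZ R F x) {i : ι} (hi : i ∈ F) : x i = 0 :=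
  (h.2 i (h.1 hi)).2.2 hi

theorem NZ.pos {R F : Finset ι} {x : ι → ℝ} (h : NZ R F x) {i : ι} (hi : i ∈ R) (hF : i ∉ F) :
    0 < x i :=
  lt_of_le_of_ne (h.nonneg hi) fun e => hF ((h.2 i hi).2.1 e.symm)

open Classical in
theorem exists_NZ {R : Finset ι} {x : ι → ℝ} (h : ∀ i ∈ R, 0 ≤ x i) :
    NZ R (R.filter fun i => x i = 0) x :=
  ⟨filter_subset _ _, fun i hi => ⟨h i hi, by rw [mem_filter]; exact ⟨fun e => ⟨hi, e⟩, fun e => e.2⟩⟩⟩

theorem mem_FF {L : Submodule ℝ (ι → ℝ)} {R F : Finset ι} : F ∈ FF L R ↔ Fc L R F := by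
  classical
  unfold FF
  rw [mem_filter, mem_powerset]
  exact ⟨fun h => h.2, fun h => ⟨h.2.2.elim fun x hx => hx.2.1, h⟩⟩

theorem Fc.sub {L : Submodule ℝ (ι → ℝ)} {R F : Finset ι} (h : Fc L R F) : F ⊆ R := by
  obtain ⟨-, -, x, -, hx⟩ := h
  exact hx.1

/-- two vectors with the same ray -/
theorem NZ.unique {R F F' : Finset ι} {x : ι → ℝ} (h : NZ R F x) (h' : NZ R F' x) : F = F' := by
  ext i
  constructor
  · intro hi
    exact (h'.2 i (h.1 hi)).2.1 (h.zero hi)
  · intro hi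
    exact (h.2 i (h'.1 hi)).2.1 (h'.zero hi)

/-- Subtracting a multiple of a ray vector. -/
theorem sub_ray {L : Submodule ℝ (ι → ℝ)} {R F G : Finset ι} {v y : ι → ℝ} (hv : RV L R F v)
    (hy : y ∈ L) (hyG : NZ R G y) (hGF : G ⊆ F) (hne : G ≠ F) :
    ∃ (t : ℝ) (G' : Finset ι), NZ R G' (y - t • v) ∧ G ⊆ G' ∧ ¬ G' ⊆ F ∧ G' ≠ R := by
  classical
  obtain ⟨hvL, hFR, hvF, hvu⟩ := hv
  obtain ⟨j, hj, hjm⟩ : ∃ j ∈ R \ F, ∀ i ∈ R \ F, y j / v j ≤ y i / v i := by
    have h1 : (R \ F).Nonempty := by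
      rw [Finset.nonempty_iff_ne_empty]
      intro e
      exact hFR (Finset.Subset.antisymm hvF.1 (Finset.sdiff_eq_empty_iff_subset.1 e))
    exact Finset.exists_min_image _ _ h1
  rw [mem_sdiff] at hj
  have hvj := hvF.pos hj.1 hj.2
  have hnn : ∀ i ∈ R, 0 ≤ (y - (y j / v j) • v) i := by
    intro i hi
    rw [Pi.sub_apply, Pi.smul_apply, smul_eq_mul]
    by_cases hiF : i ∈ F
    · rw [hvF.zero hiF, mul_zero, sub_zero]
      exact hyG.nonneg hi
    · have h2 := hjm i (mem_sdiff.2 ⟨hi, hiF⟩)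
      have h3 := hvF.pos hi hiF
      rw [sub_nonneg]
      calc y j / v j * v i ≤ y i / v i * v i := mul_le_mul_of_nonneg_right h2 h3.le
        _ = y i := div_mul_cancel₀ _ h3.ne'
  refine ⟨y j / v j, R.filter fun i => (y - (y j / v j) • v) i = 0, exists_NZ hnn, ?_, ?_, ?_⟩
  · intro i hi
    rw [mem_filter]
    refine ⟨hyG.1 hi, ?_⟩
    rw [Pi.sub_apply, Pi.smul_apply, smul_eq_mul, hyG.zero hi, hvF.zero (hGF hi), mul_zero, sub_zero]
  · intro h
    refine hj.2 (h (mem_filter.2 ⟨hj.1, ?_⟩))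
    rw [Pi.sub_apply, Pi.smul_apply, smul_eq_mul, div_mul_cancel₀ _ hvj.ne', sub_self]
  · intro h
    obtain ⟨i, hi, hiG⟩ : ∃ i ∈ F, i ∉ G := by
      by_contra hcon
      push Not at hcon
      exact hne (Finset.Subset.antisymm hGF hcon)
    have h1 : i ∈ R.filter fun i => (y - (y j / v j) • v) i = 0 := by
      rw [h]
      exact hvF.1 hi
    rw [mem_filter, Pi.sub_apply, Pi.smul_apply, smul_eq_mul, hvF.zero hi, mul_zero, sub_zero] at h1
    exact (hyG.pos (hvF.1 hi) hiG).ne' h1.2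

open Classical in
/-- If `w` is negative on all ray vectors of a face then it is negative on the face. -/
theorem neg_of_rays {L : Submodule ℝ (ι → ℝ)} {R : Finset ι} (w : (ι → ℝ) →ₗ[ℝ] ℝ)
    (hw : ∀ z ∈ L, (∀ i ∈ R, z i = 0) → w z = 0) :
    ∀ (n : ℕ) (G : Finset ι) (y : ι → ℝ), (R \ G).card = n → y ∈ L → NZ R G y → G ≠ R →
      (∀ F v, RV L R F v → G ⊆ F → w v < 0) → w y < 0 := by
  classical
  intro n
  induction n using Nat.strong_induction_on with
  | _ n ih =>
    intro G y hn hy hyG hGR hrays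
    by_cases hr : ∀ z ∈ L, (∀ i ∈ G, z i = 0) → ∃ c : ℝ, ∀ i ∈ R, z i = c * y i
    · exact hrays G y ⟨hy, hGR, hyG, hr⟩ (Finset.Subset.refl G)
    · push Not at hr
      obtain ⟨z, hz, hz0, hzc⟩ := hr
      have hne : (R \ G).Nonempty := by
        rw [Finset.nonempty_iff_ne_empty]
        intro e
        exact hGR (Finset.Subset.antisymm hyG.1 (Finset.sdiff_eq_empty_iff_subset.1 e))
      have hypos : ∀ i ∈ R \ G, 0 < y i := fun i hi =>
        hyG.pos (mem_sdiff.1 hi).1 (mem_sdiff.1 hi).2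
      -- first vector
      obtain ⟨j, hj, hjm⟩ := Finset.exists_min_image (R \ G) (fun i => z i / y i) hne
      obtain ⟨x, hx⟩ : ∃ x, x = z - (z j / y j) • y := ⟨_, rfl⟩
      have hxi : ∀ i, x i = z i - z j / y j * y i := fun i => by
        rw [hx, Pi.sub_apply, Pi.smul_apply, smul_eq_mul]
      have hxL : x ∈ L := by
        rw [hx]
        exact L.sub_mem hz (L.smul_mem _ hy)
      have hx0 : ∀ i ∈ R, 0 ≤ x i := by
        intro i hi
        rw [hxi]
        by_cases hiG : i ∈ G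
        · rw [hz0 i hiG, hyG.zero hiG, mul_zero, sub_zero]
        · have h1 := hjm i (mem_sdiff.2 ⟨hi, hiG⟩)
          have h2 := hypos i (mem_sdiff.2 ⟨hi, hiG⟩)
          rw [sub_nonneg]
          calc z j / y j * y i ≤ z i / y i * y i := mul_le_mul_of_nonneg_right h1 h2.le
            _ = z i := div_mul_cancel₀ _ h2.ne'
      obtain ⟨X, hX⟩ : ∃ X, X = R.filter fun i => x i = 0 := ⟨_, rfl⟩
      have hxX : NZ R X x := by
        rw [hX]
        exact exists_NZ hx0
      have hjR := (mem_sdiff.1 hj).1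
      have hjG := (mem_sdiff.1 hj).2
      have hjX : j ∈ X := by
        rw [hX, mem_filter]
        refine ⟨hjR, ?_⟩
        rw [hxi, div_mul_cancel₀ _ (hypos j hj).ne', sub_self]
      have hGX : G ⊆ X := by
        intro i hi
        rw [hX, mem_filter]
        refine ⟨hyG.1 hi, ?_⟩
        rw [hxi, hz0 i hi, hyG.zero hi, mul_zero, sub_zero]
      have hXR : X ≠ R := by
        intro e
        obtain ⟨i, hi, hi'⟩ := hzc (z j / y j)
        rw [← e, hX, mem_filter, hxi] at hi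
        exact hi' (sub_eq_zero.1 hi.2)
      -- second vector
      have hneX : (R \ X).Nonempty := by
        rw [Finset.nonempty_iff_ne_empty]
        intro e
        exact hXR (Finset.Subset.antisymm hxX.1 (Finset.sdiff_eq_empty_iff_subset.1 e))
      have hxpos : ∀ i ∈ R \ X, 0 < x i := fun i hi =>
        hxX.pos (mem_sdiff.1 hi).1 (mem_sdiff.1 hi).2
      obtain ⟨k, hk, hkm⟩ := Finset.exists_min_image (R \ X) (fun i => y i / x i) hneX
      obtain ⟨x', hx'⟩ : ∃ x', x' = y - (y k / x k) • x := ⟨_, rfl⟩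
      have hxi' : ∀ i, x' i = y i - y k / x k * x i := fun i => by
        rw [hx', Pi.sub_apply, Pi.smul_apply, smul_eq_mul]
      have hx'L : x' ∈ L := by
        rw [hx']
        exact L.sub_mem hy (L.smul_mem _ hxL)
      have hx'0 : ∀ i ∈ R, 0 ≤ x' i := by
        intro i hi
        rw [hxi']
        by_cases hiX : i ∈ X
        · rw [hxX.zero hiX, mul_zero, sub_zero]
          exact hyG.nonneg hi
        · have h1 := hkm i (mem_sdiff.2 ⟨hi, hiX⟩)
          have h2 := hxpos i (mem_sdiff.2 ⟨hi, hiX⟩)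
          rw [sub_nonneg]
          calc y k / x k * x i ≤ y i / x i * x i := mul_le_mul_of_nonneg_right h1 h2.le
            _ = y i := div_mul_cancel₀ _ h2.ne'
      obtain ⟨X', hX'⟩ : ∃ X', X' = R.filter fun i => x' i = 0 := ⟨_, rfl⟩
      have hxX' : NZ R X' x' := by
        rw [hX']
        exact exists_NZ hx'0
      have hkR := (mem_sdiff.1 hk).1
      have hkX := (mem_sdiff.1 hk).2
      have hkG : k ∉ G := fun h => hkX (hGX h)
      have hkX' : k ∈ X' := by
        rw [hX', mem_filter]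
        refine ⟨hkR, ?_⟩
        rw [hxi', div_mul_cancel₀ _ (hxpos k hk).ne', sub_self]
      have hGX' : G ⊆ X' := by
        intro i hi
        rw [hX', mem_filter]
        refine ⟨hyG.1 hi, ?_⟩
        rw [hxi', hyG.zero hi, hxX.zero (hGX hi), mul_zero, sub_zero]
      have hX'R : X' ≠ R := by
        intro e
        have h1 : j ∈ X' := by
          rw [e]
          exact hjR
        rw [hX', mem_filter, hxi', hxX.zero hjX, mul_zero, sub_zero] at h1
        exact (hypos j hj).ne' h1.2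
      have c1 : (R \ X).card < n := by
        rw [← hn]
        exact Finset.card_lt_card ⟨Finset.sdiff_subset_sdiff (Finset.Subset.refl R) hGX,
          fun h => (mem_sdiff.1 (h hj)).2 hjX⟩
      have c2 : (R \ X').card < n := by
        rw [← hn]
        exact Finset.card_lt_card ⟨Finset.sdiff_subset_sdiff (Finset.Subset.refl R) hGX',
          fun h => (mem_sdiff.1 (h (mem_sdiff.2 ⟨hkR, hkG⟩))).2 hkX'⟩
      have e1 := ih _ c1 X x rfl hxL hxX hXR fun F v hv hF => hrays F v hv (hGX.trans hF)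
      have e2 := ih _ c2 X' x' rfl hx'L hxX' hX'R fun F v hv hF => hrays F v hv (hGX'.trans hF)
      have e3 : y = x' + (y k / x k) • x := by
        rw [hx']
        abel
      rw [e3, map_add, map_smul, smul_eq_mul]
      have e4 : 0 < y k / x k :=
        div_pos (hypos k (mem_sdiff.2 ⟨hkR, hkG⟩)) (hxpos k hk)
      nlinarith

/-- Existence of rays. -/
theorem exists_ray {L : Submodule ℝ (ι → ℝ)} {R G : Finset ι} {y : ι → ℝ} (hy : y ∈ L)
    (hyG : NZ R G y) (hGR : G ≠ R) : ∃ F v, RV L R F v ∧ G ⊆ F := by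
  by_contra hcon
  push Not at hcon
  have h1 := neg_of_rays (L := L) (R := R) 0 (fun _ _ _ => rfl) _ G y rfl hy hyG hGR
    fun F v hv hF => absurd hF (hcon F v hv)
  exact lt_irrefl _ h1

/-- A second ray. -/
theorem exists_ray' {L : Submodule ℝ (ι → ℝ)} {R F G : Finset ι} {v y : ι → ℝ} (hv : RV L R F v)
    (hy : y ∈ L) (hyG : NZ R G y) (hGF : G ⊆ F) (hne : G ≠ F) :
    ∃ F' v', RV L R F' v' ∧ G ⊆ F' ∧ F' ≠ F := by
  obtain ⟨t, G', h1, h2, h3, h4⟩ := sub_ray hv hy hyG hGF hne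
  obtain ⟨F', v', h5, h6⟩ := exists_ray (L.sub_mem hy (L.smul_mem t hv.1)) h1 h4
  refine ⟨F', v', h5, h2.trans h6, ?_⟩
  rintro rfl
  exact h3 h6

/-- Rays on both sides. -/
theorem exists_rays {L : Submodule ℝ (ι → ℝ)} {R F G : Finset ι} {v y : ι → ℝ} (hv : RV L R F v)
    (hy : y ∈ L) (hyG : NZ R G y) (hGF : G ⊆ F) (hne : G ≠ F) (w : (ι → ℝ) →ₗ[ℝ] ℝ)
    (hw : ∀ z ∈ L, (∀ i ∈ R, z i = 0) → w z = 0) (hwv : w v = 0) (hwy : w y = 0)
    (hgen : ∀ F' v', RV L R F' v' → F' ≠ F → w v' ≠ 0) :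
    (∃ F' v', RV L R F' v' ∧ G ⊆ F' ∧ w v' < 0) ∧ ∃ F' v', RV L R F' v' ∧ G ⊆ F' ∧ 0 < w v' := by
  obtain ⟨t, G', h1, h2, h3, h4⟩ := sub_ray hv hy hyG hGF hne
  have hL : y - t • v ∈ L := L.sub_mem hy (L.smul_mem t hv.1)
  have h5 : w (y - t • v) = 0 := by
    rw [map_sub, map_smul, hwv, hwy, smul_zero, sub_zero]
  have h6 : ∀ F' v', RV L R F' v' → G' ⊆ F' → w v' ≠ 0 := by
    intro F' v' hv' hG'
    refine hgen F' v' hv' ?_
    rintro rfl
    exact h3 hG'
  constructor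
  · by_contra hcon
    push Not at hcon
    have h7 := neg_of_rays (L := L) (R := R) (-w)
      (fun z hz hz0 => by rw [LinearMap.neg_apply, hw z hz hz0, neg_zero]) _ G' _ rfl hL h1 h4
      fun F' v' hv' hG' => by
        rw [LinearMap.neg_apply]
        have h8 := hcon F' v' hv' (h2.trans hG')
        have h9 := h6 F' v' hv' hG'
        have h10 := lt_of_le_of_ne h8 h9.symm
        linarith
    rw [LinearMap.neg_apply, h5, neg_zero] at h7
    exact lt_irrefl _ h7
  · by_contra hcon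
    push Not at hcon
    have h7 := neg_of_rays (L := L) (R := R) w hw _ G' _ rfl hL h1 h4
      fun F' v' hv' hG' => lt_of_le_of_ne (hcon F' v' hv' (h2.trans hG')) (h6 F' v' hv' hG')
    rw [h5] at h7
    exact lt_irrefl _ h7

/-- Ray vectors with the same zeros are proportional. -/
theorem RV.eq {L : Submodule ℝ (ι → ℝ)} {R F : Finset ι} {v v' : ι → ℝ} (hv : RV L R F v)
    (hv' : RV L R F v') : ∃ c : ℝ, 0 < c ∧ ∀ i ∈ R, v' i = c * v i := by
  obtain ⟨c, hc⟩ := hv.2.2.2 v' hv'.1 fun i hi => hv'.2.2.1.zero hi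
  refine ⟨c, ?_, hc⟩
  obtain ⟨i, hi, hiF⟩ : ∃ i ∈ R, i ∉ F := by
    by_contra hcon
    push Not at hcon
    exact hv.2.1 (Finset.Subset.antisymm hv.2.2.1.1 hcon)
  have h1 := hv.2.2.1.pos hi hiF
  have h2 := hv'.2.2.1.pos hi hiF
  rw [hc i hi] at h2
  exact pos_of_mul_pos_left h2 h1.le

/-- Nothing is above a ray. -/
theorem RV.max {L : Submodule ℝ (ι → ℝ)} {R F G : Finset ι} {v : ι → ℝ} (hv : RV L R F v)
    (hG : Fc L R G) : ¬ F ⊂ G := by
  intro h
  obtain ⟨-, hGR, y, hy, hyG⟩ := hG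
  obtain ⟨c, hc⟩ := hv.2.2.2 y hy fun i hi => hyG.zero (h.1 hi)
  obtain ⟨j, hj, hjF⟩ : ∃ j ∈ G, j ∉ F := by
    by_contra hcon
    push Not at hcon
    exact h.2 hcon
  have h1 := hc j (hyG.1 hj)
  rw [hyG.zero hj] at h1
  have h2 := hv.2.2.1.pos (hyG.1 hj) hjF
  have h3 : c = 0 := by
    rcases mul_eq_zero.1 h1.symm with h3 | h3
    · exact h3
    · exact absurd h3 h2.ne'
  apply hGR
  refine Finset.Subset.antisymm hyG.1 fun i hi => ?_
  rw [← (hyG.2 i hi).2, hc i hi, h3, zero_mul]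

end SCP
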