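import Pool.Agent.SCP.Cone

/-!
# Project SCP (architect helper40), module Dim: dimensions of spaces of functions

`dd R L`: the dimension of the space of the restrictions to `R` of the functions in `L`.
-/

namespace SCP

open Finset

variable {ι : Type}

/-- the restriction to `R` -/
def rs (R : Finset ι) : (ι → ℝ) →ₗ[ℝ] ({i // i ∈ R} → ℝ) := LinearMap.funLeft ℝ ℝ Subtype.val

theorem rs_apply (R : Finset ι) (x : ι → ℝ) (i : {i // i ∈ R}) : rs R x i = x i.1 := rfl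

theorem rs_eq_zero {R : Finset ι} {x : ι → ℝ} : rs R x = 0 ↔ ∀ i ∈ R, x i = 0 := by
  constructor
  · intro h i hi
    exact congrFun h ⟨i, hi⟩
  · intro h
    funext i
    exact h i.1 i.2

/-- the dimension of the space of restrictions -/
noncomputable def dd (R : Finset ι) (L : Submodule ℝ (ι → ℝ)) : ℕ :=
  Module.finrank ℝ (L.map (rs R))

variable [Finite ι]

/-- rank and nullity on a subspace -/
theorem rank_null {E : Type} [AddCommGroup E] [Module ℝ E] (A : Submodule ℝ (ι → ℝ))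
    (f : (ι → ℝ) →ₗ[ℝ] E) :
    Module.finrank ℝ (A.map f) + Module.finrank ℝ ((A ⊓ LinearMap.ker f : Submodule ℝ (ι → ℝ))) =
      Module.finrank ℝ A := by
  have h1 := LinearMap.finrank_range_add_finrank_ker (f.domRestrict A)
  rw [LinearMap.range_domRestrict, LinearMap.ker_domRestrict] at h1
  rw [← h1]
  congr 1
  rw [← Submodule.finrank_map_subtype_eq A, Submodule.map_comap_subtype]

/-- the kernel of a functional -/
theorem rank_ker (A : Submodule ℝ (ι → ℝ)) (w : (ι → ℝ) →ₗ[ℝ] ℝ) {a : ι → ℝ} (ha : a ∈ A)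
    (hw : w a ≠ 0) :
    Module.finrank ℝ ((A ⊓ LinearMap.ker w : Submodule ℝ (ι → ℝ))) + 1 = Module.finrank ℝ A := by
  have h1 := rank_null A w
  have h2 : A.map w = ⊤ := by
    rw [eq_top_iff]
    intro c _
    refine ⟨(c / w a) • a, A.smul_mem _ ha, ?_⟩
    rw [map_smul, smul_eq_mul, div_mul_cancel₀ _ hw]
  rw [h2, finrank_top, Module.finrank_self] at h1
  omega

/-- The dimension drops by one for the zeros of a ray. -/
theorem dd_ray {L : Submodule ℝ (ι → ℝ)} {R F : Finset ι} {v : ι → ℝ} (hv : RV L R F v) :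
    dd F L + 1 = dd R L := by
  obtain ⟨hvL, hFR, hvF, hvu⟩ := hv
  obtain ⟨j, hj, hjF⟩ : ∃ j ∈ R, j ∉ F := by
    by_contra hcon
    push Not at hcon
    exact hFR (Finset.Subset.antisymm hvF.1 hcon)
  have hvj := hvF.pos hj hjF
  have h1 := rank_null L (rs R)
  have h2 := rank_null L (rs F)
  have h3 : Module.finrank ℝ ((L ⊓ LinearMap.ker (rs F)) ⊓
      LinearMap.ker (LinearMap.proj j : (ι → ℝ) →ₗ[ℝ] ℝ) : Submodule ℝ (ι → ℝ)) + 1 =
      Module.finrank ℝ ((L ⊓ LinearMap.ker (rs F) : Submodule ℝ (ι → ℝ))) := by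
    refine rank_ker _ _ (a := v) ⟨hvL, ?_⟩ hvj.ne'
    rw [SetLike.mem_coe, LinearMap.mem_ker, rs_eq_zero]
    exact fun i hi => hvF.zero hi
  have h4 : ((L ⊓ LinearMap.ker (rs F)) ⊓
      LinearMap.ker (LinearMap.proj j : (ι → ℝ) →ₗ[ℝ] ℝ) : Submodule ℝ (ι → ℝ)) =
      L ⊓ LinearMap.ker (rs R) := by
    ext z
    simp only [Submodule.mem_inf, LinearMap.mem_ker, rs_eq_zero, LinearMap.proj_apply]
    constructor
    · rintro ⟨⟨hz, hzF⟩, hzj⟩
      obtain ⟨c, hc⟩ := hvu z hz hzF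
      have h5 := hc j hj
      rw [hzj] at h5
      have h6 : c = 0 := by
        rcases mul_eq_zero.1 h5.symm with h6 | h6
        · exact h6
        · exact absurd h6 hvj.ne'
      exact ⟨hz, fun i hi => by rw [hc i hi, h6, zero_mul]⟩
    · rintro ⟨hz, hzR⟩
      exact ⟨⟨hz, fun i hi => hzR i (hvF.1 hi)⟩, hzR j hj⟩
  rw [h4] at h3
  unfold dd
  omega

/-- The dimension drops by one for the kernel of a functional. -/
theorem dd_ker {L : Submodule ℝ (ι → ℝ)} {F : Finset ι} (w : (ι → ℝ) →ₗ[ℝ] ℝ)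
    (hw : ∀ z ∈ L, (∀ i ∈ F, z i = 0) → w z = 0) {a : ι → ℝ} (ha : a ∈ L) (hwa : w a ≠ 0) :
    dd F (L ⊓ LinearMap.ker w) + 1 = dd F L := by
  have h1 := rank_null L (rs F)
  have h2 := rank_null (L ⊓ LinearMap.ker w) (rs F)
  have h3 := rank_ker L w ha hwa
  have h4 : ((L ⊓ LinearMap.ker w) ⊓ LinearMap.ker (rs F) : Submodule ℝ (ι → ℝ)) =
      L ⊓ LinearMap.ker (rs F) := by
    ext z
    simp only [Submodule.mem_inf, LinearMap.mem_ker, rs_eq_zero]
    constructor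
    · rintro ⟨⟨hz, -⟩, hzF⟩
      exact ⟨hz, hzF⟩
    · rintro ⟨hz, hzF⟩
      exact ⟨⟨hz, hw z hz hzF⟩, hzF⟩
  rw [h4] at h2
  unfold dd
  omega

theorem dd_pos {L : Submodule ℝ (ι → ℝ)} {F : Finset ι} {x : ι → ℝ} (hx : x ∈ L) {i : ι}
    (hi : i ∈ F) (hxi : x i ≠ 0) : 0 < dd F L := by
  have h1 : rs F x ∈ L.map (rs F) := ⟨x, hx, rfl⟩
  have h2 : Nontrivial (L.map (rs F)) := by
    refine ⟨⟨rs F x, h1⟩, 0, ?_⟩
    intro h
    have h3 := congrArg Subtype.val h
    exact hxi (congrFun h3 ⟨i, hi⟩)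
  exact Module.finrank_pos

/-- If all functions in `L` are multiples of one function on `R` then the dimension is at most
one. -/
theorem dd_le_one {L : Submodule ℝ (ι → ℝ)} {R : Finset ι} {v : ι → ℝ}
    (h : ∀ z ∈ L, ∃ c : ℝ, ∀ i ∈ R, z i = c * v i) : dd R L ≤ 1 := by
  have h1 : L.map (rs R) ≤ Submodule.span ℝ {rs R v} := by
    rintro _ ⟨z, hz, rfl⟩
    obtain ⟨c, hc⟩ := h z hz
    rw [Submodule.mem_span_singleton]
    refine ⟨c, ?_⟩
    funext i
    rw [Pi.smul_apply, smul_eq_mul, rs_apply, rs_apply]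
    exact (hc i.1 i.2).symm
  refine (Submodule.finrank_mono h1).trans ?_
  exact (finrank_span_le_card _).trans (by simp)

theorem dd_congr {L L' : Submodule ℝ (ι → ℝ)} {F : Finset ι}
    (h : ∀ y ∈ L, ∃ y' ∈ L', ∀ i ∈ F, y i = y' i) (hL : L' ≤ L) : dd F L = dd F L' := by
  have h1 : L.map (rs F) = L'.map (rs F) := by
    apply le_antisymm
    · rintro _ ⟨y, hy, rfl⟩
      obtain ⟨y', hy', h2⟩ := h y hy
      refine ⟨y', hy', ?_⟩
      funext i
      exact (h2 i.1 i.2).symm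
    · exact Submodule.map_mono hL
  unfold dd
  rw [h1]

end SCP
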