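import Pool.Agent.SCP.Aff

/-!
# Project SCP (architect helper40), module Face: exposed faces of a polytope

`tr S s`: the points of `S` in `s`.  The map `tr S` is an isomorphism from the nonempty exposed proper
faces of the convex hull of `S` to the faces `Fc (La S) univ`.
-/

namespace SCP

open Finset

variable {E : Type} [NormedAddCommGroup E] [NormedSpace ℝ E]

/-- The proper nonempty exposed faces of the convex hull of `S`. -/
def PF (S : Finset E) (s : Set E) : Prop :=
  IsExposed ℝ (convexHull ℝ (S : Set E)) s ∧ s.Nonempty ∧ s ≠ convexHull ℝ (S : Set E)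

open Classical in
/-- The points of `S` in `s`. -/
noncomputable def tr (S : Finset E) (s : Set E) : Finset {x // x ∈ S} :=
  univ.filter fun x => x.1 ∈ s

theorem mem_tr {S : Finset E} {s : Set E} {x : {x // x ∈ S}} : x ∈ tr S s ↔ x.1 ∈ s := by
  classical
  unfold tr
  rw [mem_filter]
  exact ⟨fun h => h.2, fun h => ⟨mem_univ _, h⟩⟩

theorem mem_pts_tr {S : Finset E} {s : Set E} {x : E} : x ∈ pts (tr S s) ↔ x ∈ S ∧ x ∈ s := by
  constructor
  · rintro ⟨h, h2⟩
    exact ⟨h, mem_tr.1 h2⟩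
  · rintro ⟨h, h2⟩
    exact ⟨h, mem_tr.2 h2⟩

/-- A point of the convex hull where a functional is maximal. -/
theorem hull_max {S : Finset E} {l : E →ₗ[ℝ] ℝ} {c : ℝ} (h : ∀ y ∈ S, l y ≤ c) {x : E}
    (hx : x ∈ convexHull ℝ (S : Set E)) (hl : l x = c) :
    x ∈ convexHull ℝ {y | y ∈ S ∧ l y = c} := by
  classical
  rw [Finset.mem_convexHull] at hx
  obtain ⟨w, hw0, hw1, hwx⟩ := hx
  rw [← Finset.centerMass_filter_ne_zero] at hwx
  rw [← hwx]
  have h1 : ∑ y ∈ S, w y * (c - l y) = 0 := by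
    have h2 : l x = ∑ y ∈ S, w y * l y := by
      rw [← hwx, Finset.centerMass_filter_ne_zero, Finset.centerMass_eq_of_sum_1 _ _ hw1, map_sum]
      refine Finset.sum_congr rfl fun y _ => ?_
      rw [map_smul, smul_eq_mul]
      rfl
    simp only [mul_sub, Finset.sum_sub_distrib]
    rw [← Finset.sum_mul, hw1, one_mul, ← h2, hl, sub_self]
  have h3 := (Finset.sum_eq_zero_iff_of_nonneg fun y hy =>
    mul_nonneg (hw0 y hy) (sub_nonneg.2 (h y hy))).1 h1
  refine Finset.centerMass_mem_convexHull _ (fun y hy => hw0 y (mem_filter.1 hy).1) ?_ ?_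
  · rw [Finset.sum_filter_ne_zero, hw1]
    exact one_pos
  · intro y hy
    rw [mem_filter] at hy
    refine ⟨hy.1, ?_⟩
    rcases mul_eq_zero.1 (h3 y hy.1) with h4 | h4
    · exact absurd h4 hy.2
    · exact (sub_eq_zero.1 h4).symm

/-- A supporting function of a face. -/
theorem PF.supp {S : Finset E} {s : Set E} (hs : PF S s) : ∃ (l : E →ₗ[ℝ] ℝ) (c : ℝ),
    (∀ x ∈ convexHull ℝ (S : Set E), l x ≤ c) ∧
      ∀ x, x ∈ s ↔ x ∈ convexHull ℝ (S : Set E) ∧ l x = c := by
  obtain ⟨h1, ⟨x₁, hx₁⟩, -⟩ := hs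
  obtain ⟨l, hl⟩ := h1 ⟨x₁, hx₁⟩
  have h2 := hx₁
  rw [hl] at h2
  refine ⟨l, l x₁, fun x hx => h2.2 x hx, ?_⟩
  intro x
  rw [hl]
  constructor
  · rintro ⟨hx, hx'⟩
    exact ⟨hx, le_antisymm (h2.2 x hx) (hx' x₁ h2.1)⟩
  · rintro ⟨hx, hx'⟩
    refine ⟨hx, fun y hy => ?_⟩
    have h3 := h2.2 y hy
    exact h3.trans hx'.ge

/-- A face is the convex hull of its points. -/
theorem PF.hull {S : Finset E} {s : Set E} (hs : PF S s) : convexHull ℝ (pts (tr S s)) = s := by
  obtain ⟨l, c, h1, h2⟩ := hs.supp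
  apply Set.Subset.antisymm
  · refine convexHull_min ?_ ?_
    · intro x hx
      exact (mem_pts_tr.1 hx).2
    · intro x hx y hy a b ha hb hab
      rw [h2] at hx hy ⊢
      refine ⟨convex_convexHull ℝ _ hx.1 hy.1 ha hb hab, ?_⟩
      rw [map_add, map_smul, map_smul, hx.2, hy.2, smul_eq_mul, smul_eq_mul, ← add_mul, hab,
        one_mul]
  · intro x hx
    rw [h2] at hx
    have h3 := hull_max (fun y hy => h1 y (subset_convexHull ℝ _ hy)) hx.1 hx.2
    refine convexHull_mono ?_ h3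
    rintro y ⟨hy, hy'⟩
    rw [mem_pts_tr, h2]
    exact ⟨hy, subset_convexHull ℝ _ hy, hy'⟩

theorem pts_mono {S : Finset E} {F G : Finset {x // x ∈ S}} (h : F ⊆ G) : pts F ⊆ pts G := by
  rintro x ⟨hx, hxF⟩
  exact ⟨hx, h hxF⟩

theorem tr_mono {S : Finset E} {s t : Set E} (h : s ⊆ t) : tr S s ⊆ tr S t := by
  intro x hx
  rw [mem_tr] at hx ⊢
  exact h hx

theorem tr_sub {S : Finset E} {s t : Set E} (hs : PF S s) (ht : PF S t) :
    tr S s ⊆ tr S t ↔ s ⊆ t := by
  constructor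
  · intro h
    rw [← hs.hull, ← ht.hull]
    exact convexHull_mono (pts_mono h)
  · exact tr_mono

theorem tr_ssub {S : Finset E} {s t : Set E} (hs : PF S s) (ht : PF S t) :
    tr S s ⊂ tr S t ↔ s ⊂ t := by
  rw [Finset.ssubset_def, Set.ssubset_def, tr_sub hs ht, tr_sub ht hs]

theorem tr_inj {S : Finset E} {s t : Set E} (hs : PF S s) (ht : PF S t) (h : tr S s = tr S t) :
    s = t := by
  rw [← hs.hull, ← ht.hull, h]

/-- The dimension of a face. -/
theorem PF.dim {S : Finset E} {s : Set E} (hs : PF S s) :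
    vectorSpan ℝ (pts (tr S s)) = vectorSpan ℝ s := by
  conv_rhs => rw [← hs.hull]
  rw [← direction_affineSpan, ← direction_affineSpan, affineSpan_convexHull]

theorem PF.fc {S : Finset E} {s : Set E} (hs : PF S s) : Fc (La S) univ (tr S s) := by
  obtain ⟨l, c, h1, h2⟩ := hs.supp
  refine ⟨?_, ?_, fun x => (-l) x.1 + c, mem_La.2 ⟨-l, c, fun x => rfl⟩, Finset.subset_univ _, ?_⟩
  · rw [Finset.nonempty_iff_ne_empty]
    intro h
    obtain ⟨x, hx⟩ := hs.2.1
    rw [← hs.hull] at hx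
    obtain ⟨y, hy, hy'⟩ := convexHull_nonempty_iff.1 ⟨x, hx⟩
    rw [h] at hy'
    exact absurd hy' (Finset.notMem_empty _)
  · intro h
    apply hs.2.2
    rw [← hs.hull, h]
    congr 1
    ext x
    constructor
    · rintro ⟨hx, -⟩
      exact hx
    · intro hx
      exact ⟨hx, mem_univ _⟩
  · intro x _
    have h3 := h1 x.1 (subset_convexHull ℝ _ x.2)
    change 0 ≤ -(l x.1) + c ∧ (-(l x.1) + c = 0 ↔ x ∈ tr S s)
    refine ⟨by linarith, ?_⟩
    rw [mem_tr, h2]
    constructor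
    · intro h4
      exact ⟨subset_convexHull ℝ _ x.2, by linarith⟩
    · intro h4
      rw [h4.2]
      exact neg_add_cancel c

/-- All faces are exposed faces. -/
theorem fc_exists [FiniteDimensional ℝ E] {S : Finset E} {F : Finset {x // x ∈ S}}
    (h : Fc (La S) univ F) : ∃ s, PF S s ∧ tr S s = F := by
  obtain ⟨hF, hFu, y, hy, hyF⟩ := h
  obtain ⟨l, c, hlc⟩ := mem_La.1 hy
  have h1 : ∀ x ∈ convexHull ℝ (S : Set E), 0 ≤ l x + c := by
    intro x hx
    have h2 : convexHull ℝ (S : Set E) ⊆ {x | 0 ≤ l x + c} := by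
      refine convexHull_min ?_ ?_
      · intro x hx
        have h3 := hyF.nonneg (mem_univ (⟨x, hx⟩ : {x // x ∈ S}))
        rw [hlc] at h3
        exact h3
      · intro x hx y hy a b ha hb hab
        rw [Set.mem_ofPred_eq] at hx hy ⊢
        rw [map_add, map_smul, map_smul, smul_eq_mul, smul_eq_mul]
        have h4 := mul_nonneg ha hx
        have h5 := mul_nonneg hb hy
        have h6 : a * l x + b * l y + c = a * (l x + c) + b * (l y + c) := by
          have h7 : c = (a + b) * c := by rw [hab, one_mul]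
          calc a * l x + b * l y + c = a * l x + b * l y + (a + b) * c := by rw [← h7]
            _ = _ := by ring
        rw [h6]
        exact add_nonneg h4 h5
    exact h2 hx
  obtain ⟨x₁, hx₁⟩ := hF
  have h3 : l x₁.1 + c = 0 := by
    rw [← hlc]
    exact hyF.zero hx₁
  have h4 : tr S {x | x ∈ convexHull ℝ (S : Set E) ∧ l x + c = 0} = F := by
    ext x
    rw [mem_tr, ← (hyF.2 x (mem_univ x)).2, hlc, Set.mem_ofPred_eq]
    exact ⟨fun h => h.2, fun h => ⟨subset_convexHull ℝ _ x.2, h⟩⟩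
  refine ⟨{x | x ∈ convexHull ℝ (S : Set E) ∧ l x + c = 0}, ⟨?_, ?_, ?_⟩, h4⟩
  · intro _
    refine ⟨LinearMap.toContinuousLinearMap (-l), ?_⟩
    ext x
    constructor
    · rintro ⟨hx, hx0⟩
      refine ⟨hx, fun y hy => ?_⟩
      have h5 := h1 y hy
      change -(l y) ≤ -(l x)
      linarith
    · rintro ⟨hx, hx'⟩
      refine ⟨hx, ?_⟩
      have h5 := h1 x hx
      have h6 : -(l x₁.1) ≤ -(l x) := hx' x₁.1 (subset_convexHull ℝ _ x₁.2)
      linarith
  · exact ⟨x₁.1, subset_convexHull ℝ _ x₁.2, h3⟩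
  · intro h
    apply hFu
    rw [← h4, Finset.eq_univ_iff_forall]
    intro x
    rw [mem_tr, h]
    exact subset_convexHull ℝ _ x.2

end SCP
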