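import Pool.Agent.SCP.Dim

/-!
# Project SCP (architect helper40), module Gen: generic functionals

`Lin R w`: the functional `w` depends only on the values on `R`.
-/

namespace SCP

open Finset

variable {ι : Type}

/-- `w` depends only on the values on `R`. -/
def Lin (R : Finset ι) (w : (ι → ℝ) →ₗ[ℝ] ℝ) : Prop := ∀ z, (∀ i ∈ R, z i = 0) → w z = 0

theorem Lin.congr {R : Finset ι} {w : (ι → ℝ) →ₗ[ℝ] ℝ} (hw : Lin R w) {x y : ι → ℝ}
    (h : ∀ i ∈ R, x i = y i) : w x = w y := by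
  have h1 := hw (x - y) fun i hi => by rw [Pi.sub_apply, h i hi, sub_self]
  rw [map_sub] at h1
  linarith

theorem Lin.smul {R : Finset ι} {w : (ι → ℝ) →ₗ[ℝ] ℝ} (hw : Lin R w) {x y : ι → ℝ} {c : ℝ}
    (h : ∀ i ∈ R, x i = c * y i) : w x = c * w y := by
  have h1 := hw.congr (x := x) (y := c • y) fun i hi => by
    rw [Pi.smul_apply, smul_eq_mul, h i hi]
  rw [h1, map_smul, smul_eq_mul]

/-- the sum over `R` -/
def sm (R : Finset ι) : (ι → ℝ) →ₗ[ℝ] ℝ := ∑ i ∈ R, LinearMap.proj i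

theorem sm_apply (R : Finset ι) (x : ι → ℝ) : sm R x = ∑ i ∈ R, x i := by
  unfold sm
  rw [LinearMap.sum_apply]
  rfl

theorem sm_lin (R : Finset ι) : Lin R (sm R) := by
  intro z hz
  rw [sm_apply]
  exact Finset.sum_eq_zero hz

theorem sm_pos {R F : Finset ι} {x : ι → ℝ} (h : NZ R F x) (hF : F ≠ R) : 0 < sm R x := by
  rw [sm_apply]
  refine Finset.sum_pos' (fun i hi => h.nonneg hi) ?_
  by_contra hcon
  push Not at hcon
  apply hF
  refine Finset.Subset.antisymm h.1 fun i hi => ?_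
  exact (h.2 i hi).2.1 (le_antisymm (hcon i hi) (h.nonneg hi))

theorem RV.smul {L : Submodule ℝ (ι → ℝ)} {R F : Finset ι} {v : ι → ℝ} (hv : RV L R F v) {c : ℝ}
    (hc : 0 < c) : RV L R F (c • v) := by
  obtain ⟨hvL, hFR, hvF, hvu⟩ := hv
  refine ⟨L.smul_mem _ hvL, hFR, ⟨hvF.1, ?_⟩, ?_⟩
  · intro i hi
    rw [Pi.smul_apply, smul_eq_mul]
    refine ⟨mul_nonneg hc.le (hvF.nonneg hi), ?_⟩
    rw [← (hvF.2 i hi).2, mul_eq_zero]
    constructor
    · rintro (h | h)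
      · exact absurd h hc.ne'
      · exact h
    · exact Or.inr
  · intro z hz hz0
    obtain ⟨d, hd⟩ := hvu z hz hz0
    refine ⟨d / c, fun i hi => ?_⟩
    rw [hd i hi, Pi.smul_apply, smul_eq_mul, ← mul_assoc, div_mul_cancel₀ _ hc.ne']

/-- Normalised ray vectors. -/
theorem RV.norm {L : Submodule ℝ (ι → ℝ)} {R F : Finset ι} {v : ι → ℝ} (hv : RV L R F v) :
    ∃ v', RV L R F v' ∧ sm R v' = 1 := by
  have h1 := sm_pos hv.2.2.1 hv.2.1
  refine ⟨(sm R v)⁻¹ • v, hv.smul (inv_pos.2 h1), ?_⟩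
  rw [map_smul, smul_eq_mul, inv_mul_cancel₀ h1.ne']

/-- A generic functional. -/
theorem exists_generic (R : Finset ι) (M : Finset (Finset ι)) (v : Finset ι → ι → ℝ)
    (hv : ∀ F ∈ M, ∀ F' ∈ M, F ≠ F' → ¬ ∀ i ∈ R, v F i = v F' i) :
    ∃ u : (ι → ℝ) →ₗ[ℝ] ℝ, Lin R u ∧ ∀ F ∈ M, ∀ F' ∈ M, F ≠ F' → u (v F) ≠ u (v F') := by
  obtain ⟨f, hf⟩ := Module.exists_dual_forall_apply_ne_zero (K := ℝ)
    (ι := {q : {F // F ∈ M} × {F // F ∈ M} // q.1 ≠ q.2})
    (fun q => rs R (v q.1.1.1 - v q.1.2.1)) (by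
      rintro ⟨⟨⟨F, hF⟩, F', hF'⟩, hq⟩ h
      refine hv F hF F' hF' (fun e => hq (Subtype.ext e)) ?_
      rw [rs_eq_zero] at h
      intro i hi
      have h1 := h i hi
      rw [Pi.sub_apply] at h1
      exact sub_eq_zero.1 h1)
  refine ⟨f ∘ₗ rs R, ?_, ?_⟩
  · intro z hz
    rw [LinearMap.comp_apply, rs_eq_zero.2 hz, map_zero]
  · intro F hF F' hF' hne h
    refine hf ⟨⟨⟨F, hF⟩, F', hF'⟩, fun e => hne (congrArg Subtype.val e)⟩ ?_
    rw [LinearMap.comp_apply, LinearMap.comp_apply] at h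
    change f (rs R (v F - v F')) = 0
    rw [map_sub, map_sub, h, sub_self]

/-- Adding nonnegative multiples of two vectors to get into the kernel. -/
theorem adjust {w : (ι → ℝ) →ₗ[ℝ] ℝ} {x v v' : ι → ℝ} (h1 : w v < 0) (h2 : 0 < w v') :
    ∃ a b : ℝ, 0 ≤ a ∧ 0 ≤ b ∧ w (x + a • v + b • v') = 0 := by
  by_cases h : 0 ≤ w x
  · refine ⟨w x / (- w v), 0, div_nonneg h (by linarith), le_rfl, ?_⟩
    rw [zero_smul, add_zero, map_add, map_smul, smul_eq_mul]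
    have h3 : w x / (- w v) * w v = - w x := by
      rw [div_neg, neg_mul, div_mul_cancel₀ _ h1.ne]
    rw [h3, add_neg_cancel]
  · push Not at h
    refine ⟨0, (- w x) / w v', le_rfl, div_nonneg (by linarith) h2.le, ?_⟩
    rw [zero_smul, add_zero, map_add, map_smul, smul_eq_mul, div_mul_cancel₀ _ h2.ne',
      add_neg_cancel]

end SCP
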