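import Pool.Agent.SCP.Gen

/-!
# Project SCP (architect helper40), module Step: the faces of a ray in the kernel of a functional

`L' = L ⊓ ker w`, where `w` vanishes on the ray vector `v` of `F` and on no other ray vector: the faces
of `L'` on `F` are the faces of `L` below `F`, below a ray with `w < 0` and below a ray with `w > 0`.
-/

namespace SCP

open Finset

variable {ι : Type}

/-- Adding a large multiple of the ray vector. -/
theorem add_ray {L : Submodule ℝ (ι → ℝ)} {R F G : Finset ι} {v y : ι → ℝ} (hv : RV L R F v)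
    (hyG : NZ F G y) : ∃ t : ℝ, NZ R G (y + t • v) := by
  classical
  obtain ⟨t, ht⟩ : ∃ t : ℝ, ∀ i ∈ R \ F, 0 < y i + t * v i := by
    refine ⟨∑ i ∈ R \ F, (|y i| + 1) / v i, ?_⟩
    intro i hi
    have h1 := hv.2.2.1.pos (mem_sdiff.1 hi).1 (mem_sdiff.1 hi).2
    have h2 : (|y i| + 1) / v i ≤ ∑ i ∈ R \ F, (|y i| + 1) / v i := by
      refine Finset.single_le_sum (f := fun i => (|y i| + 1) / v i) (fun j hj => ?_) hi
      have h3 := hv.2.2.1.pos (mem_sdiff.1 hj).1 (mem_sdiff.1 hj).2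
      have h4 := abs_nonneg (y j)
      exact div_nonneg (by linarith) h3.le
    have h5 : |y i| + 1 ≤ (∑ i ∈ R \ F, (|y i| + 1) / v i) * v i := by
      rw [← div_le_iff₀ h1]
      exact h2
    have h6 := neg_abs_le (y i)
    linarith
  refine ⟨t, hyG.1.trans hv.2.2.1.1, ?_⟩
  intro i hi
  rw [Pi.add_apply, Pi.smul_apply, smul_eq_mul]
  by_cases hiF : i ∈ F
  · rw [hv.2.2.1.zero hiF, mul_zero, add_zero]
    exact hyG.2 i hiF
  · have h1 := ht i (mem_sdiff.2 ⟨hi, hiF⟩)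
    refine ⟨h1.le, ?_⟩
    constructor
    · intro h
      exact absurd h h1.ne'
    · intro h
      exact absurd (hyG.1 h) hiF

/-- The faces of the kernel. -/
theorem step {L : Submodule ℝ (ι → ℝ)} {R F : Finset ι} {v : ι → ℝ} (hv : RV L R F v)
    (hF : F.Nonempty) (w : (ι → ℝ) →ₗ[ℝ] ℝ) (hw : Lin R w) (hwv : w v = 0)
    (hgen : ∀ F' v', RV L R F' v' → F' ≠ F → w v' ≠ 0) (G : Finset ι) :
    Fc (L ⊓ LinearMap.ker w) F G ↔ Fc L R G ∧ G ⊂ F ∧
      (∃ F' v', RV L R F' v' ∧ w v' < 0 ∧ G ⊂ F') ∧ ∃ F' v', RV L R F' v' ∧ 0 < w v' ∧ G ⊂ F' := by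
  have hFF : Fc L R F := ⟨hF, hv.2.1, v, hv.1, hv.2.2.1⟩
  constructor
  · rintro ⟨hG, hGF, y, hy, hyG⟩
    obtain ⟨hyL, hyw⟩ := hy
    rw [SetLike.mem_coe, LinearMap.mem_ker] at hyw
    obtain ⟨t, ht⟩ := add_ray hv hyG
    have hs : G ⊂ F := Finset.ssubset_iff_subset_ne.2 ⟨hyG.1, hGF⟩
    have hGR : G ≠ R := by
      intro e
      rw [e] at hs
      exact hs.2 hv.2.2.1.1
    obtain ⟨h1, h2⟩ := exists_rays hv (L.add_mem hyL (L.smul_mem t hv.1)) ht hyG.1 hGF w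
      (fun z _ hz => hw z hz) hwv (by rw [map_add, map_smul, hyw, hwv, smul_zero, add_zero]) hgen
    have h3 : ∀ F' v', RV L R F' v' → G ⊆ F' → G ⊂ F' := by
      intro F' v' hv' h
      refine Finset.ssubset_iff_subset_ne.2 ⟨h, ?_⟩
      rintro rfl
      exact hv'.max hFF hs
    refine ⟨⟨hG, hGR, _, L.add_mem hyL (L.smul_mem t hv.1), ht⟩, hs, ?_, ?_⟩
    · obtain ⟨F', v', h4, h5, h6⟩ := h1
      exact ⟨F', v', h4, h6, h3 F' v' h4 h5⟩
    · obtain ⟨F', v', h4, h5, h6⟩ := h2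
      exact ⟨F', v', h4, h6, h3 F' v' h4 h5⟩
  · rintro ⟨⟨hG, hGR, y, hy, hyG⟩, hs, ⟨F₁, v₁, hv₁, hw₁, hG₁⟩, F₂, v₂, hv₂, hw₂, hG₂⟩
    obtain ⟨a, b, ha, hb, hab⟩ := adjust (x := y) hw₁ hw₂
    refine ⟨hG, hs.ne, y + a • v₁ + b • v₂, ⟨?_, hab⟩, hs.1, ?_⟩
    · exact L.add_mem (L.add_mem hy (L.smul_mem a hv₁.1)) (L.smul_mem b hv₂.1)
    · intro i hi
      have hiR := hv.2.2.1.1 hi
      have n1 := hv₁.2.2.1.nonneg hiR
      have n2 := hv₂.2.2.1.nonneg hiR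
      have n3 := hyG.nonneg hiR
      have n4 := mul_nonneg ha n1
      have n5 := mul_nonneg hb n2
      rw [Pi.add_apply, Pi.add_apply, Pi.smul_apply, Pi.smul_apply, smul_eq_mul, smul_eq_mul]
      refine ⟨by linarith, ?_⟩
      constructor
      · intro h
        exact (hyG.2 i hiR).2.1 (by linarith)
      · intro h
        rw [hyG.zero h, hv₁.2.2.1.zero (hG₁.1 h), hv₂.2.2.1.zero (hG₂.1 h), mul_zero, mul_zero,
          add_zero, add_zero]

end SCP
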